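import Pool.Agent.Y485.HS.Stm

/-! HSS-AVG: averages of maps with bounded energy have bounded energy -/

open MeasureTheory Set Metric Filter Topology
open scoped ENNReal NNReal

namespace Pool.Agent.Y563.HS.Av

open Pool.Agent.Y485.HS

instance (n : ℕ) : CompactSpace (BB n) :=
  isCompact_iff_compactSpace.1 (isCompact_closedBall (0 : E n) 4)

/-- continuous maps of the ball with energy at most `m` -/
def SS (n m : ℕ) : Set C(BB n, E n) :=
  {f | ∃ g : E n → ℝ≥0∞, Measurable g ∧
    (∀ x y : BB n, edist (f x) (f y) ≤ edist x.1 y.1 * (g x.1 + g y.1)) ∧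
    ∫⁻ x in BB n, g x ^ n ≤ m}

theorem mem_SS_iff {n m : ℕ} (f : C(BB n, E n)) (u : E n → E n) (h : ∀ x : BB n, u x.1 = f x) :
    f ∈ SS n m ↔ SobOn m u := by
  constructor
  · rintro ⟨g, hg, h1, h2⟩
    refine ⟨g, hg, fun x hx y hy => ?_, h2⟩
    have := h1 ⟨x, hx⟩ ⟨y, hy⟩
    rwa [← h, ← h] at this
  · rintro ⟨g, hg, h1, h2⟩
    refine ⟨g, hg, fun x y => ?_, h2⟩
    have := h1 x.1 x.2 y.1 y.2
    rwa [h, h] at this

theorem convex_SS (n m : ℕ) (hn : 1 ≤ n) : Convex ℝ (SS n m) := by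
  intro f1 hf1 f2 hf2 a b ha hb hab
  obtain ⟨g1, hg1, h1, i1⟩ := hf1
  obtain ⟨g2, hg2, h2, i2⟩ := hf2
  have hsum : ENNReal.ofReal a + ENNReal.ofReal b = 1 := by
    rw [← ENNReal.ofReal_add ha hb, hab, ENNReal.ofReal_one]
  refine ⟨fun x => ENNReal.ofReal a * g1 x + ENNReal.ofReal b * g2 x,
    (hg1.const_mul _).add (hg2.const_mul _), fun x y => ?_, ?_⟩
  · have e1 : ∀ (c : ℝ), 0 ≤ c → ∀ (u v : E n),
        edist (c • u) (c • v) = ENNReal.ofReal c * edist u v := by
      intro c hc u v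
      rw [edist_smul₀, ENNReal.smul_def, smul_eq_mul]
      congr 1
      rw [← enorm_eq_nnnorm, Real.enorm_eq_ofReal hc]
    calc edist ((a • f1 + b • f2) x) ((a • f1 + b • f2) y)
        = edist (a • f1 x + b • f2 x) (a • f1 y + b • f2 y) := rfl
      _ ≤ edist (a • f1 x) (a • f1 y) + edist (b • f2 x) (b • f2 y) := edist_add_add_le _ _ _ _
      _ = ENNReal.ofReal a * edist (f1 x) (f1 y) + ENNReal.ofReal b * edist (f2 x) (f2 y) := by
        rw [e1 a ha, e1 b hb]
      _ ≤ ENNReal.ofReal a * (edist x.1 y.1 * (g1 x.1 + g1 y.1)) +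
          ENNReal.ofReal b * (edist x.1 y.1 * (g2 x.1 + g2 y.1)) := by
        gcongr
        · exact h1 x y
        · exact h2 x y
      _ = _ := by ring
  · have hp : (1 : ℝ) ≤ n := by exact_mod_cast hn
    calc ∫⁻ x in BB n, (ENNReal.ofReal a * g1 x + ENNReal.ofReal b * g2 x) ^ n
        ≤ ∫⁻ x in BB n, (ENNReal.ofReal a * g1 x ^ n + ENNReal.ofReal b * g2 x ^ n) := by
          apply lintegral_mono
          intro x
          have := ENNReal.rpow_arith_mean_le_arith_mean2_rpow (ENNReal.ofReal a)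
            (ENNReal.ofReal b) (g1 x) (g2 x) hsum hp
          simpa only [ENNReal.rpow_natCast] using this
      _ = ENNReal.ofReal a * (∫⁻ x in BB n, g1 x ^ n) +
          ENNReal.ofReal b * (∫⁻ x in BB n, g2 x ^ n) := by
          rw [lintegral_add_left ((hg1.pow_const n).const_mul _),
            lintegral_const_mul _ (hg1.pow_const n), lintegral_const_mul _ (hg2.pow_const n)]
      _ ≤ ENNReal.ofReal a * m + ENNReal.ofReal b * m := by gcongr
      _ = m := by rw [← add_mul, hsum, one_mul]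

/-- extension by zero -/
noncomputable def ex {n : ℕ} (f : C(BB n, E n)) : E n → E n := by
  classical
  exact fun x => if h : x ∈ BB n then f ⟨x, h⟩ else 0

theorem ex_apply {n : ℕ} (f : C(BB n, E n)) (x : BB n) : ex f x.1 = f x := by
  unfold ex
  rw [dif_pos x.2]

theorem closed_SS (hCL : S_CL) (n m : ℕ) (hn : 2 ≤ n) : IsClosed (SS n m) := by
  apply IsSeqClosed.isClosed
  intro F f hF hf
  rw [mem_SS_iff f (ex f) (ex_apply f)]
  apply hCL n hn m (fun i => ex (F i)) (ex f)
  · intro i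
    rw [← mem_SS_iff (F i) (ex (F i)) (ex_apply (F i))]
    exact hF i
  · rw [ContinuousMap.tendsto_iff_tendstoUniformly] at hf
    rw [Metric.tendstoUniformly_iff] at hf
    rw [Metric.tendstoUniformlyOn_iff]
    intro ε hε
    filter_upwards [hf ε hε] with i hi x hx
    have := hi ⟨x, hx⟩
    rw [← ex_apply, ← ex_apply] at this
    exact this

theorem avg (hCL : S_CL) : S_AVG := by
  intro n hn Ω _ _ _ _ μ _ T hT m hTm
  have hc : Continuous (fun q : Ω × BB n => T q.1 q.2.1) := by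
    have : Continuous (fun q : Ω × BB n => (q.1, q.2.1)) := by fun_prop
    exact hT.comp_continuous this fun q => ⟨mem_univ _, q.2.2⟩
  let Φ : C(Ω, C(BB n, E n)) := ContinuousMap.curry ⟨_, hc⟩
  have hΦ : ∀ ω (x : BB n), Φ ω x = T ω x.1 := fun ω x => rfl
  have hint : Integrable (fun ω => Φ ω) μ :=
    Φ.continuous.integrable_of_hasCompactSupport (HasCompactSupport.of_compactSpace _)
  have hmem : ∫ ω, Φ ω ∂μ ∈ SS n m := by
    apply (convex_SS n m (by omega)).integral_mem (closed_SS hCL n m hn) _ hint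
    refine Eventually.of_forall fun ω => ?_
    rw [mem_SS_iff (Φ ω) (T ω) (fun x => rfl)]
    exact hTm ω
  have heval : ∀ x : BB n, ∫ ω, T ω x.1 ∂μ = (∫ ω, Φ ω ∂μ : C(BB n, E n)) x := by
    intro x
    have := (ContinuousMap.evalCLM ℝ x : C(BB n, E n) →L[ℝ] E n).integral_comp_comm hint
    exact this
  refine ⟨(mem_SS_iff _ _ heval).1 hmem, ?_⟩
  rw [continuousOn_iff_continuous_domRestrict]
  have : (BB n).domRestrict (fun x => ∫ ω, T ω x ∂μ) = (∫ ω, Φ ω ∂μ : C(BB n, E n)) := by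
    ext1 x
    exact heval x
  rw [this]
  exact (∫ ω, Φ ω ∂μ : C(BB n, E n)).continuous

end Pool.Agent.Y563.HS.Av
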